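import Pool.Agent.Alm48.H2
import Pool.Agent.Alm48.G9c

/-!
# MP_0fb52e_co: an asymptotic form of Lindström's conjecture on `M(n)`

`M(n)` is partitioned into the minimum possible number of saturated chains, all but a proportion
`O(log n / √n)` of which are symmetric.
-/

set_option autoImplicit false

namespace Pool.Agent.Results.MP_0fb52e_co.AlmostSymmetric

open scoped BigOperators
open Finset Pool.Alm48

/-- There is a constant `C` such that for every `n ≥ 2` the binary vectors of length `n` can be
partitioned into `m` saturated chains (every step sets the first bit to 1 or shifts a 1 one place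
right), where `m` is the number of vectors of the middle rank `⌊N/2⌋`, `N = n(n+1)/2`, such that

* at most `C (log n / √n) m` of the chains are not symmetric (i.e. the ranks of bottom and top do not
  add up to `N`), and
* the non-symmetric chains contain at most `C ((log n)^(3/2) / √n) 2^n` vectors altogether. -/
theorem result : ∃ C : ℝ, ∀ n : ℕ, 2 ≤ n →
    ∃ m : ℕ, ∃ len : Fin m → ℕ, ∃ c : (k : Fin m) → Fin (len k + 1) → (Fin n → Bool),
      m = ((univ : Finset (Fin n → Bool)).filter (fun x =>
        (∑ i : Fin n, if x i = true then (i.val + 1) else 0) = n * (n + 1) / 2 / 2)).card ∧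
      Function.Bijective (fun p : (Σ k : Fin m, Fin (len k + 1)) => c p.1 p.2) ∧
      (∀ k : Fin m, ∀ j : Fin (len k + 1), ∀ h : j.val + 1 < len k + 1,
        (∃ i : Fin n, i.val = 0 ∧ c k j i = false ∧
          c k ⟨j.val + 1, h⟩ = Function.update (c k j) i true) ∨
        (∃ i i' : Fin n, i'.val = i.val + 1 ∧ c k j i = true ∧ c k j i' = false ∧
          c k ⟨j.val + 1, h⟩ = Function.update (Function.update (c k j) i false) i' true)) ∧
      ((univ.filter (fun k : Fin m => ¬
        ((∑ i : Fin n, if c k ⟨0, Nat.succ_pos _⟩ i = true then (i.val + 1) else 0) +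
        (∑ i : Fin n, if c k (Fin.last (len k)) i = true then (i.val + 1) else 0)
          = n * (n + 1) / 2))).card : ℝ) ≤ C * (Real.log n / Real.sqrt n) * m ∧
      ((∑ k ∈ univ.filter (fun k : Fin m => ¬
        ((∑ i : Fin n, if c k ⟨0, Nat.succ_pos _⟩ i = true then (i.val + 1) else 0) +
        (∑ i : Fin n, if c k (Fin.last (len k)) i = true then (i.val + 1) else 0)
          = n * (n + 1) / 2)), (len k + 1) : ℕ) : ℝ) ≤
        C * (Real.log n * Real.sqrt (Real.log n) / Real.sqrt n) * 2 ^ n := by
  obtain ⟨C, hC⟩ := almost3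
  refine ⟨C, fun n hn => ?_⟩
  obtain ⟨S, hS, h1, h2⟩ := hC n hn
  obtain ⟨m, len, c, hm, hbij, hstep, hnons, hnonsEl⟩ := convert2 S hS
  refine ⟨m, len, c, ?_, hbij, hstep, ?_, ?_⟩
  · rw [hm]; rfl
  · rw [hnons, hm]; exact h1
  · rw [hnonsEl]; exact h2

end Pool.Agent.Results.MP_0fb52e_co.AlmostSymmetric
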